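import Pool.Agent.X179.SP.Main1
import Pool.Agent.X179.SP.Pos

namespace Pool.Agent.Results.MP_fc9cb6_an.Schatten

open Pool.Agent.X179.SP

/-- The Schatten class `S_p` (`1 ≤ p < ∞`) of a separable infinite-dimensional complex Hilbert
space is approximately semi-amenable if and only if `p = 1`. -/
theorem result (p : ℝ) (hp : 1 ≤ p)
    (H : Type) [NormedAddCommGroup H] [InnerProductSpace ℂ H] [CompleteSpace H]
    (e : HilbertBasis ℕ ℂ H)
    (A : Type) [NonUnitalNormedRing A] [NormedSpace ℂ A] [IsScalarTower ℂ A A]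
    [SMulCommClass ℂ A A] [CompleteSpace A]
    (ι : A →ₙₐ[ℂ] (H →L[ℂ] H)) (hι : IsSchatten p ι) :
    ApproxSemiAmenable A ↔ p = 1 := by
  constructor
  · intro hA
    by_contra hne
    exact neg_part (lt_of_le_of_ne hp (Ne.symm hne)) hι e.orthonormal hA
  · rintro rfl
    intro X _ _ _ M D hD
    exact pos_part hι e M.dual D hD

end Pool.Agent.Results.MP_fc9cb6_an.Schatten
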